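import Mathlib

/-!
# MP_dcd76c_al: every odd number at least 3 is the clique number and the chromatic number of the
commuting graph of a finite group

For `w = z * P` with `P` an odd prime, the group `C_z × PGL(2,P)` works.
-/

set_option autoImplicit false

namespace Pool.Agent.Results.MP_dcd76c_al.OddCliqueChromatic

open Matrix

/-- The commuting graph of `G`: the vertices are the non-central elements, and distinct vertices
are adjacent when they commute. -/
def commutingGraph (G : Type) [Group G] : SimpleGraph {x : G // x ∉ Subgroup.center G} where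
  Adj x y := x ≠ y ∧ (x : G) * (y : G) = (y : G) * (x : G)
  symm := ⟨fun _ _ ⟨h1, h2⟩ => ⟨h1.symm, h2.symm⟩⟩
  loopless := ⟨fun _ h => h.1 rfl⟩

section matrices

variable {P : ℕ} [hP : Fact P.Prime]

/-- Parity of the least nonnegative residue. -/
noncomputable def par (t : ZMod P) : ZMod P := if Even t.val then 0 else 1

/-- Colour of the point with coordinates `p q r u`. -/
noncomputable def colour (p q r u : ZMod P) : ZMod P :=
  open Classical in
  if r ≠ 0 then p / r + par (((p - u) ^ 2 + 4 * q * r) / (4 * r ^ 2))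
  else if p ≠ u then -q / (p - u) + 2 + (p + u) / (p - u)
  else p / q

theorem par_cases (t : ZMod P) : par t = 0 ∨ par t = 1 := by
  unfold par
  split_ifs
  · exact Or.inl rfl
  · exact Or.inr rfl

theorem two_ne (h2 : P ≠ 2) : (2 : ZMod P) ≠ 0 := by
  intro h
  have h1 : ((2 : ℕ) : ZMod P) = 0 := by exact_mod_cast h
  rw [ZMod.natCast_eq_zero_iff] at h1
  exact h2 ((Nat.prime_dvd_prime_iff_eq hP.out Nat.prime_two).1 h1)

omit hP in
theorem odd_P (hP : P.Prime) (h2 : P ≠ 2) : P % 2 = 1 := (hP.eq_two_or_odd).resolve_left h2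

/-- The combinatorial heart of the colouring. -/
theorem heart (h2 : P ≠ 2) {a a' t t' : ZMod P} (ht : t ≠ 0) (ht' : t' ≠ 0)
    (h : t + t' = (a - a') ^ 2) : a + par t ≠ a' + par t' := by
  have hodd := odd_P hP.out h2
  intro he
  have hval : t.val ≠ 0 := by rwa [Ne, ZMod.val_eq_zero]
  have hval' : t'.val ≠ 0 := by rwa [Ne, ZMod.val_eq_zero]
  have hlt := t.val_lt
  have hlt' := t'.val_lt
  by_cases hpar : par t = par t'
  · rw [hpar] at he
    have ha : a = a' := add_right_cancel he
    rw [ha, sub_self, zero_pow two_ne_zero] at h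
    have hv : (t.val + t'.val) % P = 0 := by
      rw [← ZMod.val_add, h, ZMod.val_zero]
    have hs : t.val + t'.val = P := by
      obtain ⟨k, hk⟩ := Nat.dvd_of_mod_eq_zero hv
      have : k = 1 := by
        have h0 : 0 < k := by
          rcases Nat.eq_zero_or_pos k with h | h
          · rw [h] at hk; omega
          · exact h
        have h1 : k < 2 := by
          by_contra hcon
          have : P * 2 ≤ P * k := Nat.mul_le_mul_left _ (by omega)
          omega
        omega
      rw [this, mul_one] at hk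
      exact hk
    unfold par at hpar
    by_cases e1 : Even t.val <;> by_cases e2 : Even t'.val
    · have := e1.add e2
      rw [hs, Nat.even_iff] at this
      omega
    · rw [if_pos e1, if_neg e2] at hpar
      exact zero_ne_one hpar
    · rw [if_neg e1, if_pos e2] at hpar
      exact one_ne_zero hpar
    · rw [Nat.not_even_iff_odd] at e1 e2
      have := e1.add_odd e2
      rw [hs, Nat.even_iff] at this
      omega
  · have hsq : (a - a') ^ 2 = 1 := by
      rcases par_cases t with h3 | h3 <;> rcases par_cases t' with h4 | h4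
      · exact absurd (h3.trans h4.symm) hpar
      · rw [h3, h4] at he
        have : a - a' = 1 := by linear_combination he
        rw [this, one_pow]
      · rw [h3, h4] at he
        have : a - a' = -1 := by linear_combination he
        rw [this]; ring
      · exact absurd (h3.trans h4.symm) hpar
    rw [hsq] at h
    have hP1 : 1 < P := hP.out.one_lt
    have hv : (t.val + t'.val) % P = 1 := by
      have : Fact (1 < P) := ⟨hP1⟩
      rw [← ZMod.val_add, h, ZMod.val_one]
    have hs : t.val + t'.val = P + 1 := by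
      have hd : P ∣ (t.val + t'.val - 1) := by
        have : 1 ≡ t.val + t'.val [MOD P] := by
          unfold Nat.ModEq
          rw [hv, Nat.mod_eq_of_lt hP1]
        exact (Nat.modEq_iff_dvd' (by omega)).1 this
      obtain ⟨k, hk⟩ := hd
      have : k = 1 := by
        have h0 : 0 < k := by
          rcases Nat.eq_zero_or_pos k with h | h
          · rw [h] at hk; omega
          · exact h
        have h1 : k < 2 := by
          by_contra hcon
          have : P * 2 ≤ P * k := Nat.mul_le_mul_left _ (by omega)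
          omega
        omega
      rw [this, mul_one] at hk
      omega
    unfold par at hpar
    by_cases e1 : Even t.val <;> by_cases e2 : Even t'.val
    · rw [if_pos e1, if_pos e2] at hpar
      exact hpar rfl
    · rw [Nat.not_even_iff_odd] at e2
      have := e1.add_odd e2
      rw [hs, Nat.odd_iff] at this
      omega
    · rw [Nat.not_even_iff_odd] at e1
      have := e1.add_even e2
      rw [hs, Nat.odd_iff] at this
      omega
    · rw [if_neg e1, if_neg e2] at hpar
      exact hpar rfl

/-- Proportional quadruples. -/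
def Prop4 (p q r u p' q' r' u' : ZMod P) : Prop :=
  ∃ c : ZMod P, p' = c * p ∧ q' = c * q ∧ r' = c * r ∧ u' = c * u

/-- Commuting non-scalar matrices with the same colour are proportional. -/
theorem colour_comm (h2 : P ≠ 2) {p q r u p' q' r' u' : ZMod P}
    (hs : ¬ (q = 0 ∧ r = 0 ∧ p = u)) (hs' : ¬ (q' = 0 ∧ r' = 0 ∧ p' = u'))
    (e1 : q * r' = q' * r) (e2 : (p - u) * q' = (p' - u') * q)
    (e3 : (p - u) * r' = (p' - u') * r) (hc : colour p q r u = colour p' q' r' u') :
    Prop4 p q r u p' q' r' u' := by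
  have h2' := two_ne h2
  unfold colour at hc
  by_cases hr : r = 0
  · subst hr
    have hr' : r' = 0 := by
      by_contra hr'
      apply hs
      rw [mul_zero] at e1 e3
      refine ⟨?_, rfl, ?_⟩
      · exact (mul_eq_zero.1 e1).resolve_right hr'
      · exact sub_eq_zero.1 ((mul_eq_zero.1 e3).resolve_right hr')
    subst hr'
    have c1 : ¬ ((0 : ZMod P) ≠ 0) := fun h => h rfl
    rw [if_neg c1, if_neg c1] at hc
    by_cases hpu : p = u
    · subst hpu
      have hq : q ≠ 0 := fun h => hs ⟨h, rfl, rfl⟩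
      have hpu' : p' = u' := by
        rw [sub_self, zero_mul] at e2
        exact sub_eq_zero.1 ((mul_eq_zero.1 e2.symm).resolve_right hq)
      subst hpu'
      have hq' : q' ≠ 0 := fun h => hs' ⟨h, rfl, rfl⟩
      rw [if_neg (fun h : p ≠ p => h rfl), if_neg (fun h : p' ≠ p' => h rfl),
        div_eq_div_iff hq hq'] at hc
      refine ⟨q' / q, ?_, ?_, by simp, ?_⟩
      · rw [div_mul_eq_mul_div, eq_div_iff hq]; linear_combination -hc
      · rw [div_mul_cancel₀ _ hq]
      · rw [div_mul_eq_mul_div, eq_div_iff hq]; linear_combination -hc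
    · have hd : p - u ≠ 0 := sub_ne_zero.2 hpu
      have hpu' : p' ≠ u' := by
        intro h
        apply hs'
        rw [h, sub_self, zero_mul] at e2
        exact ⟨(mul_eq_zero.1 e2).resolve_left hd, rfl, h⟩
      have hd' : p' - u' ≠ 0 := sub_ne_zero.2 hpu'
      rw [if_pos hpu, if_pos hpu'] at hc
      have hq : q / (p - u) = q' / (p' - u') := by
        rw [div_eq_div_iff hd hd']; linear_combination -e2
      have hc2 : (p + u) / (p - u) = (p' + u') / (p' - u') := by
        rw [neg_div, neg_div, hq] at hc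
        linear_combination hc
      rw [div_eq_div_iff hd hd'] at hc2
      have k1 : p * u' = p' * u := by
        have : (2 : ZMod P) * (p * u' - p' * u) = 0 := by linear_combination -hc2
        exact sub_eq_zero.1 ((mul_eq_zero.1 this).resolve_left h2')
      refine ⟨(p' - u') / (p - u), ?_, ?_, by simp, ?_⟩
      · rw [div_mul_eq_mul_div, eq_div_iff hd]; linear_combination k1
      · rw [div_mul_eq_mul_div, eq_div_iff hd]; linear_combination e2
      · rw [div_mul_eq_mul_div, eq_div_iff hd]; linear_combination k1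
  · have hr' : r' ≠ 0 := by
      intro h
      apply hs'
      rw [h, mul_zero] at e1 e3
      refine ⟨?_, h, ?_⟩
      · exact (mul_eq_zero.1 e1.symm).resolve_right hr
      · exact sub_eq_zero.1 ((mul_eq_zero.1 e3.symm).resolve_right hr)
    rw [if_pos hr, if_pos hr'] at hc
    have ht : ((p - u) ^ 2 + 4 * q * r) / (4 * r ^ 2) =
        ((p' - u') ^ 2 + 4 * q' * r') / (4 * r' ^ 2) := by
      have h4 : (4 : ZMod P) ≠ 0 := by
        have : (4 : ZMod P) = 2 * 2 := by norm_num
        rw [this]; exact mul_ne_zero h2' h2'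
      rw [div_eq_div_iff (mul_ne_zero h4 (pow_ne_zero 2 hr)) (mul_ne_zero h4 (pow_ne_zero 2 hr'))]
      linear_combination (4 * ((p - u) * r' + (p' - u') * r)) * e3 + 16 * r * r' * e1
    rw [ht] at hc
    have hc' : p / r = p' / r' := add_right_cancel hc
    rw [div_eq_div_iff hr hr'] at hc'
    refine ⟨r' / r, ?_, ?_, ?_, ?_⟩
    · rw [div_mul_eq_mul_div, eq_div_iff hr]; linear_combination -hc'
    · rw [div_mul_eq_mul_div, eq_div_iff hr]; linear_combination -e1
    · rw [div_mul_cancel₀ _ hr]
    · rw [div_mul_eq_mul_div, eq_div_iff hr]; linear_combination e3 - hc'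

/-- Anticommuting invertible matrices have different colours. -/
theorem colour_anti (h2 : P ≠ 2) {p q r p' q' r' : ZMod P}
    (hd : p * (-p) - q * r ≠ 0) (hd' : p' * (-p') - q' * r' ≠ 0)
    (e : 2 * p * p' + q * r' + q' * r = 0) :
    colour p q r (-p) ≠ colour p' q' r' (-p') := by
  have h2' := two_ne h2
  have h4 : (4 : ZMod P) ≠ 0 := by
    have : (4 : ZMod P) = 2 * 2 := by norm_num
    rw [this]; exact mul_ne_zero h2' h2'
  have hsimp : ∀ p q r : ZMod P, r ≠ 0 →
      ((p - -p) ^ 2 + 4 * q * r) / (4 * r ^ 2) = (p / r) ^ 2 + q / r := by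
    intro p q r hr
    field_simp
    ring
  have hnz : ∀ p q r : ZMod P, r ≠ 0 → p * (-p) - q * r ≠ 0 → (p / r) ^ 2 + q / r ≠ 0 := by
    intro p q r hr h h3
    apply h
    have : (p / r) ^ 2 + q / r = (p ^ 2 + q * r) / r ^ 2 := by field_simp
    rw [this, div_eq_zero_iff] at h3
    rcases h3 with h3 | h3
    · linear_combination -h3
    · exact absurd h3 (pow_ne_zero 2 hr)
  -- the mixed case
  have mixed : ∀ p q r p' q' : ZMod P, r ≠ 0 → p' * (-p') - q' * 0 ≠ 0 →
      2 * p * p' + q' * r = 0 → colour p q r (-p) ≠ colour p' q' 0 (-p') := by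
    intro p q r p' q' hr hd' e hc
    have hp' : p' ≠ 0 := by
      rintro rfl
      apply hd'
      ring
    have hpp : p' ≠ -p' := by
      intro h
      have : (2 : ZMod P) * p' = 0 := by linear_combination h
      exact hp' ((mul_eq_zero.1 this).resolve_left h2')
    unfold colour at hc
    rw [if_pos hr, if_neg (by simp), if_pos hpp] at hc
    have k1 : -q' / (p' - -p') = p / r := by
      have hne : p' - -p' ≠ 0 := by
        intro h
        apply hpp
        linear_combination h
      rw [div_eq_div_iff hne hr]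
      linear_combination -e
    have k2 : (p' + -p') / (p' - -p') = 0 := by simp
    rw [k1, k2, add_zero] at hc
    have k3 := add_left_cancel hc
    rcases par_cases (((p - -p) ^ 2 + 4 * q * r) / (4 * r ^ 2)) with h | h
    · rw [h] at k3
      exact h2' k3.symm
    · rw [h] at k3
      have : (1 : ZMod P) = 0 := by linear_combination -k3
      exact one_ne_zero this
  by_cases hr : r = 0
  · subst hr
    by_cases hr' : r' = 0
    · subst hr'
      exfalso
      have hp : p ≠ 0 := by
        rintro rfl
        apply hd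
        ring
      have hp' : p' ≠ 0 := by
        rintro rfl
        apply hd'
        ring
      have : (2 : ZMod P) * p * p' = 0 := by linear_combination e
      exact (mul_ne_zero (mul_ne_zero h2' hp) hp') this
    · exact (mixed p' q' r' p q hr' hd (by linear_combination e)).symm
  · by_cases hr' : r' = 0
    · subst hr'
      exact mixed p q r p' q' hr hd' (by linear_combination e)
    · intro hc
      unfold colour at hc
      rw [if_pos hr, if_pos hr', hsimp p q r hr, hsimp p' q' r' hr'] at hc
      refine heart h2 (hnz p q r hr hd) (hnz p' q' r' hr' hd') ?_ hc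
      field_simp
      linear_combination (r * r') * e

end matrices

section pgl

variable {P : ℕ} [hP : Fact P.Prime]

/-- The projective general linear group, as the quotient of `GL(2,P)` by its centre. -/
abbrev PGL2 (P : ℕ) [Fact P.Prime] : Type :=
  GL (Fin 2) (ZMod P) ⧸ Subgroup.center (GL (Fin 2) (ZMod P))

/-- Colour of a matrix. -/
noncomputable def mcol (A : GL (Fin 2) (ZMod P)) : ZMod P :=
  colour (A.val 0 0) (A.val 0 1) (A.val 1 0) (A.val 1 1)

theorem scalar_apply (c : ZMod P) : (Matrix.scalar (Fin 2) c : Matrix (Fin 2) (Fin 2) (ZMod P)) =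
    !![c, 0; 0, c] := by
  ext i j
  fin_cases i <;> fin_cases j <;> simp

theorem det_ne (A : GL (Fin 2) (ZMod P)) :
    A.val 0 0 * A.val 1 1 - A.val 0 1 * A.val 1 0 ≠ 0 := by
  have := (Matrix.isUnits_det_units A).ne_zero
  rwa [Matrix.det_fin_two] at this

/-- Two matrices whose classes commute: they commute or anticommute. -/
theorem comm_or_anti {A B : GL (Fin 2) (ZMod P)}
    (h : ((A : PGL2 P)) * (B : PGL2 P) = (B : PGL2 P) * (A : PGL2 P)) :
    A.val * B.val = B.val * A.val ∨ A.val * B.val = -(B.val * A.val) := by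
  have h1 : ((A * B : GL (Fin 2) (ZMod P)) : PGL2 P) = ((B * A : GL (Fin 2) (ZMod P)) : PGL2 P) := h
  rw [QuotientGroup.eq, GeneralLinearGroup.mem_center_iff_val_mem_range_scalar] at h1
  obtain ⟨c, hc⟩ := h1
  have h2 : B.val * A.val = A.val * B.val * Matrix.scalar (Fin 2) c := by
    rw [hc]
    have : (A * B) * ((A * B)⁻¹ * (B * A)) = B * A := by group
    have h3 := congrArg Units.val this
    rw [Units.val_mul, Units.val_mul, Units.val_mul] at h3
    exact h3.symm
  have h3 : c ^ 2 = 1 := by
    have h4 := congrArg Matrix.det h2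
    rw [Matrix.det_mul, Matrix.det_mul, Matrix.det_mul, scalar_apply, Matrix.det_fin_two_of] at h4
    have hA := (Matrix.isUnits_det_units A).ne_zero
    have hB := (Matrix.isUnits_det_units B).ne_zero
    have h5 : (A.val.det * B.val.det) * (c ^ 2 - 1) = 0 := by linear_combination -h4
    rcases mul_eq_zero.1 h5 with h6 | h6
    · exact absurd h6 (mul_ne_zero hA hB)
    · linear_combination h6
  have h4 : (c - 1) * (c + 1) = 0 := by linear_combination h3
  rcases mul_eq_zero.1 h4 with h5 | h5
  · left
    have hc1 : c = 1 := sub_eq_zero.1 h5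
    rw [hc1, map_one, mul_one] at h2
    exact h2.symm
  · right
    have hc1 : c = -1 := eq_neg_of_add_eq_zero_left h5
    rw [hc1, map_neg, map_one, mul_neg, mul_one] at h2
    rw [h2, neg_neg]

/-- Distinct commuting nonidentity classes have different colours. -/
theorem mcol_ne (h2 : P ≠ 2) {A B : GL (Fin 2) (ZMod P)} (hA : (A : PGL2 P) ≠ 1)
    (hB : (B : PGL2 P) ≠ 1) (hAB : (A : PGL2 P) ≠ (B : PGL2 P))
    (h : ((A : PGL2 P)) * (B : PGL2 P) = (B : PGL2 P) * (A : PGL2 P)) : mcol A ≠ mcol B := by
  have h2' := two_ne h2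
  have nonscalar : ∀ A : GL (Fin 2) (ZMod P), (A : PGL2 P) ≠ 1 →
      ¬ (A.val 0 1 = 0 ∧ A.val 1 0 = 0 ∧ A.val 0 0 = A.val 1 1) := by
    rintro A hA ⟨h1, h3, h4⟩
    apply hA
    rw [QuotientGroup.eq_one_iff, GeneralLinearGroup.mem_center_iff_val_mem_range_scalar]
    refine ⟨A.val 0 0, ?_⟩
    rw [scalar_apply]
    ext i j
    fin_cases i <;> fin_cases j
    · rfl
    · exact h1.symm
    · exact h3.symm
    · exact h4
  have hsA := nonscalar A hA
  have hsB := nonscalar B hB
  have hdA := det_ne A
  have hdB := det_ne B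
  obtain ⟨p, hp⟩ : ∃ p, p = A.val 0 0 := ⟨_, rfl⟩
  obtain ⟨q, hq⟩ : ∃ p, p = A.val 0 1 := ⟨_, rfl⟩
  obtain ⟨r, hr⟩ : ∃ p, p = A.val 1 0 := ⟨_, rfl⟩
  obtain ⟨u, hu⟩ : ∃ p, p = A.val 1 1 := ⟨_, rfl⟩
  obtain ⟨p', hp'⟩ : ∃ p, p = B.val 0 0 := ⟨_, rfl⟩
  obtain ⟨q', hq'⟩ : ∃ p, p = B.val 0 1 := ⟨_, rfl⟩
  obtain ⟨r', hr'⟩ : ∃ p, p = B.val 1 0 := ⟨_, rfl⟩
  obtain ⟨u', hu'⟩ : ∃ p, p = B.val 1 1 := ⟨_, rfl⟩
  have entries : ∀ i j, (A.val * B.val) i j = A.val i 0 * B.val 0 j + A.val i 1 * B.val 1 j := by
    intro i j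
    rw [Matrix.mul_apply, Fin.sum_univ_two]
  have entries' : ∀ i j, (B.val * A.val) i j = B.val i 0 * A.val 0 j + B.val i 1 * A.val 1 j := by
    intro i j
    rw [Matrix.mul_apply, Fin.sum_univ_two]
  rcases comm_or_anti h with hc | hc
  · have c00 := congrFun (congrFun hc 0) 0
    have c01 := congrFun (congrFun hc 0) 1
    have c10 := congrFun (congrFun hc 1) 0
    rw [entries, entries'] at c00 c01 c10
    simp only [← hp, ← hq, ← hr, ← hu, ← hp', ← hq', ← hr', ← hu'] at c00 c01 c10 hsA hsB
    intro hcol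
    unfold mcol at hcol
    rw [← hp, ← hq, ← hr, ← hu, ← hp', ← hq', ← hr', ← hu'] at hcol
    obtain ⟨c, k1, k2, k3, k4⟩ := colour_comm h2 hsA hsB (by linear_combination c00)
      (by linear_combination c01) (by linear_combination -c10) hcol
    apply hAB
    have hc0 : c ≠ 0 := by
      rintro rfl
      apply hdB
      rw [← hp', ← hq', ← hr', ← hu', k1, k2, k3, k4]
      ring
    rw [QuotientGroup.eq, GeneralLinearGroup.mem_center_iff_val_mem_range_scalar]
    refine ⟨c, ?_⟩
    have hB' : B.val = A.val * Matrix.scalar (Fin 2) c := by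
      ext i j
      rw [scalar_apply, Matrix.mul_apply, Fin.sum_univ_two]
      fin_cases i <;> fin_cases j
      · simp only [Fin.zero_eta, Fin.isValue, Matrix.of_apply, Matrix.cons_val', Matrix.cons_val_zero,
          Matrix.cons_val_fin_one, Matrix.cons_val_one]
        rw [← hp', ← hp, k1]; ring
      · simp only [Fin.zero_eta, Fin.isValue, Matrix.of_apply, Matrix.cons_val', Matrix.cons_val_zero,
          Matrix.cons_val_fin_one, Matrix.cons_val_one, Fin.mk_one]
        rw [← hq', ← hq, k2]; ring
      · simp only [Fin.zero_eta, Fin.isValue, Matrix.of_apply, Matrix.cons_val', Matrix.cons_val_zero,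
          Matrix.cons_val_fin_one, Matrix.cons_val_one, Fin.mk_one]
        rw [← hr', ← hr, k3]; ring
      · simp only [Fin.isValue, Matrix.of_apply, Matrix.cons_val', Matrix.cons_val_zero,
          Matrix.cons_val_fin_one, Matrix.cons_val_one, Fin.mk_one]
        rw [← hu', ← hu, k4]; ring
    rw [Units.val_mul, hB', ← mul_assoc, Units.inv_mul, one_mul]
  · have c00 := congrFun (congrFun hc 0) 0
    rw [Matrix.neg_apply, entries, entries'] at c00
    have trz : ∀ A B : GL (Fin 2) (ZMod P), A.val * B.val = -(B.val * A.val) →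
        A.val 0 0 + A.val 1 1 = 0 := by
      intro A B hc
      have h5 : A.val = -(B.val * A.val * (B⁻¹ : GL (Fin 2) (ZMod P)).val) := by
        calc A.val = A.val * B.val * (B⁻¹ : GL (Fin 2) (ZMod P)).val := by
              rw [mul_assoc, Units.mul_inv, mul_one]
          _ = -(B.val * A.val) * (B⁻¹ : GL (Fin 2) (ZMod P)).val := by rw [hc]
          _ = -(B.val * A.val * (B⁻¹ : GL (Fin 2) (ZMod P)).val) := by rw [neg_mul]
      have h7 : Matrix.trace A.val = -Matrix.trace A.val := by
        conv_lhs => rw [h5]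
        rw [Matrix.trace_neg, Matrix.trace_mul_comm, ← mul_assoc, Units.inv_mul, one_mul]
      rw [Matrix.trace_fin_two] at h7
      have h8 : (2 : ZMod P) * (A.val 0 0 + A.val 1 1) = 0 := by linear_combination h7
      exact (mul_eq_zero.1 h8).resolve_left h2'
    have tA := trz A B hc
    have tB := trz B A (by rw [hc, neg_neg])
    rw [← hp, ← hu] at tA
    rw [← hp', ← hu'] at tB
    have hu2 : u = -p := by linear_combination tA
    have hu2' : u' = -p' := by linear_combination tB
    rw [← hp, ← hq, ← hr, ← hu] at hdA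
    rw [← hp', ← hq', ← hr', ← hu'] at hdB
    simp only [← hp, ← hq, ← hr, ← hp', ← hq', ← hr'] at c00
    unfold mcol
    rw [← hp, ← hq, ← hr, ← hu, ← hp', ← hq', ← hr', ← hu', hu2, hu2']
    rw [hu2] at hdA
    rw [hu2'] at hdB
    exact colour_anti h2 hdA hdB (by linear_combination c00)

end pgl

section graph

variable {P : ℕ} [hP : Fact P.Prime]

/-- A matrix `[[x, n], [1, x]]` with `n` a non-square. -/
noncomputable def tor (n x : ZMod P) (hn : ¬ IsSquare n) : GL (Fin 2) (ZMod P) :=
  Matrix.GeneralLinearGroup.mkOfDetNeZero !![x, n; 1, x] (by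
    rw [Matrix.det_fin_two_of]
    intro h
    exact hn ⟨x, by linear_combination -h⟩)

theorem tor_val (n x : ZMod P) (hn : ¬ IsSquare n) : (tor n x hn).val = !![x, n; 1, x] := rfl

/-- A shear. -/
noncomputable def shear (P : ℕ) [Fact P.Prime] : GL (Fin 2) (ZMod P) :=
  Matrix.GeneralLinearGroup.mkOfDetNeZero !![1, 1; 0, 1] (by
    rw [Matrix.det_fin_two_of]; simp)

theorem shear_val : (shear P).val = !![1, 1; 0, 1] := rfl

theorem tor_comm (n x y : ZMod P) (hn : ¬ IsSquare n) :
    tor n x hn * tor n y hn = tor n y hn * tor n x hn := by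
  apply Units.ext
  rw [Units.val_mul, Units.val_mul, tor_val, tor_val]
  ext i j
  fin_cases i <;> fin_cases j <;> simp [Matrix.mul_apply, Fin.sum_univ_two] <;> ring

theorem tor_inj {n x y : ZMod P} {hn : ¬ IsSquare n}
    (h : ((tor n x hn : GL (Fin 2) (ZMod P)) : PGL2 P) = (tor n y hn : GL (Fin 2) (ZMod P))) :
    x = y := by
  rw [QuotientGroup.eq, GeneralLinearGroup.mem_center_iff_val_mem_range_scalar] at h
  obtain ⟨c, hc⟩ := h
  have h1 : (tor n y hn).val = (tor n x hn).val * Matrix.scalar (Fin 2) c := by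
    rw [hc, Units.val_mul, ← mul_assoc, Units.mul_inv, one_mul]
  rw [tor_val, tor_val, scalar_apply] at h1
  have h2 := congrFun (congrFun h1 1) 0
  have h3 := congrFun (congrFun h1 0) 0
  simp [Matrix.mul_apply, Fin.sum_univ_two] at h2 h3
  rw [← h2, mul_one] at h3
  exact h3.symm

theorem tor_not_comm (h2 : P ≠ 2) (n x : ZMod P) (hn : ¬ IsSquare n) :
    ((tor n x hn : GL (Fin 2) (ZMod P)) : PGL2 P) * (shear P : GL (Fin 2) (ZMod P)) ≠
      ((shear P : GL (Fin 2) (ZMod P)) : PGL2 P) * (tor n x hn : GL (Fin 2) (ZMod P)) := by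
  intro h
  have h2' := two_ne h2
  rcases comm_or_anti h with h1 | h1
  · have h3 := congrFun (congrFun h1 0) 0
    rw [tor_val, shear_val] at h3
    simp [Matrix.mul_apply, Fin.sum_univ_two] at h3
  · have h3 := congrFun (congrFun h1 1) 0
    rw [Matrix.neg_apply, tor_val, shear_val] at h3
    simp [Matrix.mul_apply, Fin.sum_univ_two] at h3
    have : (2 : ZMod P) = 0 := by linear_combination h3
    exact h2' this

/-- The group of the construction. -/
abbrev GG (z P : ℕ) [Fact P.Prime] : Type := Multiplicative (ZMod z) × PGL2 P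

theorem not_center (h2 : P ≠ 2) {z : ℕ} (c : Multiplicative (ZMod z)) (n x : ZMod P)
    (hn : ¬ IsSquare n) :
    ((c, ((tor n x hn : GL (Fin 2) (ZMod P)) : PGL2 P)) : GG z P) ∉ Subgroup.center (GG z P) := by
  intro h
  have h1 := (Subgroup.mem_center_iff.1 h) (1, ((shear P : GL (Fin 2) (ZMod P)) : PGL2 P))
  exact tor_not_comm h2 n x hn (congrArg Prod.snd h1).symm

theorem snd_ne_one {z : ℕ} {g : GG z P} (hg : g ∉ Subgroup.center (GG z P)) : g.2 ≠ 1 := by
  intro h
  apply hg
  rw [Subgroup.mem_center_iff]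
  intro k
  refine Prod.ext ?_ ?_
  · exact mul_comm _ _
  · change k.2 * g.2 = g.2 * k.2
    rw [h, one_mul, mul_one]

/-- The colouring of the commuting graph. -/
theorem colorable (h2 : P ≠ 2) (z : ℕ) [NeZero z] :
    (commutingGraph (GG z P)).Colorable (z * P) := by
  let C : (commutingGraph (GG z P)).Coloring (ZMod z × ZMod P) :=
    SimpleGraph.Coloring.mk (fun g => (Multiplicative.toAdd g.val.1, mcol g.val.2.out)) (by
      rintro ⟨g, hg⟩ ⟨k, hk⟩ ⟨hne, hcomm⟩ he
      have he1 : g.1 = k.1 := Multiplicative.toAdd.injective (Prod.ext_iff.1 he).1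
      have he2 : mcol g.2.out = mcol k.2.out := (Prod.ext_iff.1 he).2
      have hgk : g.2 ≠ k.2 := fun h => hne (Subtype.ext (Prod.ext he1 h))
      have hcomm2 : g.2 * k.2 = k.2 * g.2 := congrArg Prod.snd hcomm
      have e1 : ((g.2.out : GL (Fin 2) (ZMod P)) : PGL2 P) = g.2 := Quotient.out_eq' g.2
      have e2 : ((k.2.out : GL (Fin 2) (ZMod P)) : PGL2 P) = k.2 := Quotient.out_eq' k.2
      refine mcol_ne (A := g.2.out) (B := k.2.out) h2 ?_ ?_ ?_ ?_ he2
      · rw [e1]; exact snd_ne_one hg
      · rw [e2]; exact snd_ne_one hk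
      · rw [e1, e2]; exact hgk
      · rw [e1, e2]; exact hcomm2)
  have h := C.colorable
  rwa [Fintype.card_prod, ZMod.card, ZMod.card] at h

/-- A large clique. -/
theorem exists_clique (h2 : P ≠ 2) (z : ℕ) [NeZero z] :
    ∃ s : Finset {x : GG z P // x ∉ Subgroup.center (GG z P)},
      (commutingGraph (GG z P)).IsNClique (z * P) s := by
  classical
  obtain ⟨n, hn⟩ : ∃ n : ZMod P, ¬ IsSquare n := by
    apply FiniteField.exists_nonsquare
    rw [ZMod.ringChar_zmod_n]
    exact h2
  let f : ZMod z × ZMod P → {x : GG z P // x ∉ Subgroup.center (GG z P)} := fun v =>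
    ⟨(Multiplicative.ofAdd v.1, ((tor n v.2 hn : GL (Fin 2) (ZMod P)) : PGL2 P)),
      not_center h2 _ n v.2 hn⟩
  have hf : Function.Injective f := by
    rintro ⟨c, x⟩ ⟨d, y⟩ h
    have h1 := congrArg Subtype.val h
    have h3 : c = d := Multiplicative.ofAdd.injective (congrArg Prod.fst h1)
    have h4 : x = y := tor_inj (congrArg Prod.snd h1)
    rw [h3, h4]
  refine ⟨Finset.univ.image f, ?_⟩
  rw [SimpleGraph.isNClique_iff]
  constructor
  · rintro _ ha _ hb hab
    rw [Finset.coe_image, Set.mem_image] at ha hb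
    obtain ⟨⟨c, x⟩, _, rfl⟩ := ha
    obtain ⟨⟨d, y⟩, _, rfl⟩ := hb
    refine ⟨hab, Prod.ext (mul_comm _ _) ?_⟩
    exact congrArg (QuotientGroup.mk (s := Subgroup.center (GL (Fin 2) (ZMod P))))
      (tor_comm n x y hn)
  · rw [Finset.card_image_of_injective _ hf, Finset.card_univ, Fintype.card_prod, ZMod.card,
      ZMod.card]

end graph

/-- For every positive integer `n` there is a finite non-abelian group whose commuting graph has
clique number and chromatic number both equal to `2 * n + 1`. -/
theorem result (n : ℕ) (hn : 0 < n) : ∃ (G : Type) (_ : Group G) (_ : Finite G),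
    (∃ a b : G, a * b ≠ b * a) ∧
    (∃ s : Finset {x : G // x ∉ Subgroup.center G}, (commutingGraph G).IsNClique (2 * n + 1) s) ∧
    (commutingGraph G).cliqueNum = 2 * n + 1 ∧
    (commutingGraph G).chromaticNumber = ((2 * n + 1 : ℕ) : ℕ∞) := by
  obtain ⟨P, hP, hPd⟩ := Nat.exists_prime_and_dvd (show 2 * n + 1 ≠ 1 by omega)
  have hP2 : P ≠ 2 := by
    rintro rfl
    omega
  have : Fact P.Prime := ⟨hP⟩
  obtain ⟨z, hz⟩ := hPd
  have hz0 : NeZero z := ⟨by rintro rfl; omega⟩
  have hw : 2 * n + 1 = z * P := by rw [hz, mul_comm]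
  rw [hw]
  have hfin : Finite (GG z P) := inferInstance
  obtain ⟨s, hs⟩ := exists_clique (P := P) hP2 z
  have hcol := colorable (P := P) hP2 z
  have h1 : z * P ≤ (commutingGraph (GG z P)).cliqueNum := by
    have := hs.isClique.card_le_cliqueNum
    rwa [hs.card_eq] at this
  have h2 : ((commutingGraph (GG z P)).cliqueNum : ℕ∞) ≤
      (commutingGraph (GG z P)).chromaticNumber := SimpleGraph.cliqueNum_le_chromaticNumber
  have h3 : (commutingGraph (GG z P)).chromaticNumber ≤ ((z * P : ℕ) : ℕ∞) :=
    hcol.chromaticNumber_le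
  have h4 : (commutingGraph (GG z P)).cliqueNum ≤ z * P := by exact_mod_cast h2.trans h3
  have h5 : (commutingGraph (GG z P)).cliqueNum = z * P := le_antisymm h4 h1
  refine ⟨GG z P, inferInstance, hfin, ?_, ⟨s, hs⟩, h5, ?_⟩
  · obtain ⟨m, hm⟩ : ∃ m : ZMod P, ¬ IsSquare m := by
      apply FiniteField.exists_nonsquare
      rw [ZMod.ringChar_zmod_n]
      exact hP2
    refine ⟨(1, ((tor m 0 hm : GL (Fin 2) (ZMod P)) : PGL2 P)),
      (1, ((shear P : GL (Fin 2) (ZMod P)) : PGL2 P)), fun h => ?_⟩
    exact tor_not_comm hP2 m 0 hm (congrArg Prod.snd h)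
  · exact le_antisymm h3 (by rw [← h5]; exact h2)

end Pool.Agent.Results.MP_dcd76c_al.OddCliqueChromatic
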